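import Pool.Agent.TH972.RAsym

/-!
# Intermediate diameter exponents of disordered spanning trees on the complete graph

The definitions `env`, `treeWt`, `gibbs`, `avg` are in `Pool.Agent.TH972.RDefs`.
For `β_n = n ^ (31/24)` the diameter of the random spanning tree in random environment on `K_n`
lies between `n ^ (7/20)` and `n ^ (21/50)` with averaged probability tending to one. More
generally, for every sequence with `log β_n / log n → 1 + g`, `1/4 < g < 1/3`, the diameter lies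
between `n ^ a` and `n ^ b` as soon as `a < (1 - g)/2` and `1 - 2 g < b`; here one can take
`1/3 < a ≤ b < 1/2`.
-/

set_option autoImplicit false

open Filter Topology Pool.Agent.TH972.RSTRE

namespace Pool.Agent.Results.MP_f8cd8e_pr.IntermediateExponents

/-- There is a sequence of inverse temperatures for which the diameter has, with high probability,
an exponent in a fixed closed subinterval of `(1/3, 1/2)`: explicitly, `β_n = n ^ (31/24)` and the
interval `[7/20, 21/50]`; and every sequence with `log β_n / log n → 1 + g`, `1/4 < g < 1/3`,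
is an example. -/
theorem result :
    ((1 : ℝ) / 3 < 7 / 20 ∧ (7 : ℝ) / 20 ≤ 21 / 50 ∧ (21 : ℝ) / 50 < 1 / 2 ∧
      (∀ n : ℕ, 0 ≤ (n : ℝ) ^ (31 / 24 : ℝ)) ∧
      Tendsto (fun n : ℕ => avg ((n : ℝ) ^ (31 / 24 : ℝ)) n (fun T =>
        (n : ℝ) ^ (7 / 20 : ℝ) ≤ (T.diam : ℝ) ∧ (T.diam : ℝ) ≤ (n : ℝ) ^ (21 / 50 : ℝ)))
        atTop (𝓝 1)) ∧
    (∀ g : ℝ, 1 / 4 < g → g < 1 / 3 → (1 : ℝ) / 3 < (1 - g) / 2 ∧ (1 - g) / 2 ≤ 1 - 2 * g ∧
      1 - 2 * g < 1 / 2 ∧
      ∀ β : ℕ → ℝ, (∀ n, 0 ≤ β n) →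
      Tendsto (fun n : ℕ => Real.log (β n) / Real.log n) atTop (𝓝 (1 + g)) →
      ∀ a b : ℝ, a < (1 - g) / 2 → 1 - 2 * g < b →
      Tendsto (fun n : ℕ => avg (β n) n (fun T =>
        (n : ℝ) ^ a ≤ (T.diam : ℝ) ∧ (T.diam : ℝ) ≤ (n : ℝ) ^ b)) atTop (𝓝 1)) := by
  have key : ∀ g : ℝ, 1 / 4 < g → g < 1 / 3 → ∀ β : ℕ → ℝ, (∀ n, 0 ≤ β n) →
      Tendsto (fun n : ℕ => Real.log (β n) / Real.log n) atTop (𝓝 (1 + g)) →
      ∀ a b : ℝ, a < (1 - g) / 2 → 1 - 2 * g < b →
      Tendsto (fun n : ℕ => avg (β n) n (fun T =>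
        (n : ℝ) ^ a ≤ (T.diam : ℝ) ∧ (T.diam : ℝ) ≤ (n : ℝ) ^ b)) atTop (𝓝 1) := by
    intro g hg1 hg2 β hβ0 hβ a b ha hb
    set ε : ℝ := min ((1 - g) / 2 - a) (b - (1 - 2 * g)) with hε
    have hε0 : 0 < ε := lt_min (by linarith) (by linarith)
    have hε1 : ε ≤ (1 - g) / 2 - a := min_le_left _ _
    have hε2 : ε ≤ b - (1 - 2 * g) := min_le_right _ _
    have h := Pool.Agent.TH972.two_sided g (by linarith) hg2 β hβ0 hβ ε hε0
    refine tendsto_of_tendsto_of_tendsto_of_le_of_le' h tendsto_const_nhds ?_ ?_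
    · filter_upwards [eventually_ge_atTop 1] with n hn
      have hn1 : (1 : ℝ) ≤ n := by exact_mod_cast hn
      rw [Pool.Agent.TH972.avg_eq, Pool.Agent.TH972.avg_eq]
      apply Pool.Agent.TH972.avgw_mono (Pool.Agent.TH972.wexp_pos _)
        (Pool.Agent.TH972.wexp_meas _)
      rintro T _ ⟨h1, h2⟩
      exact ⟨(Real.rpow_le_rpow_of_exponent_le hn1 (by linarith)).trans h1,
        h2.trans (Real.rpow_le_rpow_of_exponent_le hn1 (by linarith))⟩
    · filter_upwards with n
      rw [Pool.Agent.TH972.avg_eq]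
      exact Pool.Agent.TH972.avgw_le_one (Pool.Agent.TH972.wexp_pos _)
        (Pool.Agent.TH972.wexp_meas _) _
  refine ⟨⟨by norm_num, by norm_num, by norm_num, fun n => by positivity, ?_⟩, ?_⟩
  · apply key (7 / 24) (by norm_num) (by norm_num) _ (fun n => by positivity) _ _ _
      (by norm_num) (by norm_num)
    apply tendsto_const_nhds.congr'
    filter_upwards [eventually_ge_atTop 2] with n hn
    have hn1 : (1 : ℝ) < n := by exact_mod_cast hn
    have hL : 0 < Real.log n := Real.log_pos hn1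
    rw [Real.log_rpow (by linarith)]
    field_simp
    norm_num
  · intro g hg1 hg2
    exact ⟨by linarith, by linarith, by linarith, key g hg1 hg2⟩

end Pool.Agent.Results.MP_f8cd8e_pr.IntermediateExponents
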